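import Pool.Agent.H14.ENR.Stmts4

/-! Board enr (MP_d15c96_al), row SY4. -/

set_option autoImplicit false

namespace Pool.ENR

open Pool.Agent.H81.ENG Pool.Agent.H55.NEU

open scoped Pointwise in
theorem sy4_thm (hORB : ORBStmt) (hCSY : CSYStmt) : SY4Stmt := by
  intro F _ _ r f N hr σ hf hq hq4 hσ
  have hcard := hCSY F r f hf hq
  have h4 : ¬ 4 ∣ Nat.card (Sylow r (PS F)) := by
    rw [hcard]
    omega
  let π : Equiv.Perm (Sylow r (PS F)) := MulAction.toPermHom (MulAut (PS F)) (Sylow r (PS F)) σ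
  have hπ : π ^ (2 ^ N) = 1 := by
    show (MulAction.toPermHom (MulAut (PS F)) (Sylow r (PS F)) σ) ^ (2 ^ N) = 1
    rw [← map_pow, hσ, map_one]
  have hne : Nat.card (Sylow r (PS F)) ≠ 0 := by
    rw [hcard]
    omega
  have hfin : Finite (Sylow r (PS F)) := (Nat.card_ne_zero.1 hne).2
  obtain ⟨P, hP⟩ := hORB (Sylow r (PS F)) π N hπ h4
  have h0 : σ • (σ • P) = P := hP
  have h1 : (σ ^ 2) • P = P := by
    rw [pow_two, mul_smul]
    exact h0
  have hP2 : ∀ x, x ∈ P ↔ (σ ^ 2) x ∈ P := by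
    intro x
    have h2 : (σ ^ 2) • (P : Subgroup (PS F)) = (P : Subgroup (PS F)) := by
      rw [← Sylow.pointwise_smul_def, h1]
    have h3 : (σ ^ 2) • x ∈ (σ ^ 2) • (P : Subgroup (PS F)) ↔ x ∈ (P : Subgroup (PS F)) :=
      Subgroup.smul_mem_pointwise_smul_iff
    rw [h2] at h3
    exact h3.symm
  obtain ⟨U, hU⟩ := sylow_of_card hf hq (UU F) card_UU
  obtain ⟨h, hh⟩ := MulAction.exists_smul_eq (PS F) P U
  refine ⟨h, ?_⟩
  have hmem : ∀ x, x ∈ UU F ↔ h⁻¹ * x * h ∈ P := by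
    intro x
    rw [← hU, ← hh, Sylow.coe_subgroup_smul, Subgroup.mem_pointwise_smul_iff_inv_smul_mem]
    have e : (MulAut.conj h)⁻¹ • x = h⁻¹ * x * h := by
      rw [MulAut.smul_def, MulAut.conj_inv_apply]
    rw [e]
    rfl
  intro x
  have e : h⁻¹ * (((MulAut.conj h * σ * (MulAut.conj h)⁻¹) ^ 2) x) * h =
      (σ ^ 2) (h⁻¹ * x * h) := by
    rw [conj_pow, MulAut.mul_apply, MulAut.mul_apply, MulAut.conj_inv_apply, MulAut.conj_apply]
    group
  rw [hmem, hmem, e, ← hP2]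

end Pool.ENR
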