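import Pool.Agent.H29.ENR.Stmts

/-! Board enr, row TRV. -/

set_option autoImplicit false

namespace Pool.ENR

open Pool.Agent.H81.ENG

/-- A finite nonabelian simple group has an element of prime order different from `p`. -/
theorem exists_other_prime (T : Type) [Group T] [Finite T] {p : ℕ} (hp : p.Prime)
    (hs : IsSimpleGroup T) (hab : ¬ ∀ a c : T, a * c = c * a) :
    ∃ (q : ℕ) (x : T), q.Prime ∧ q ≠ p ∧ orderOf x = q := by
  haveI : Fact p.Prime := ⟨hp⟩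
  by_contra hcon
  have hpg : IsPGroup p T := by
    rw [IsPGroup.iff_card]
    have h0 : Nat.card T ≠ 0 := Nat.card_pos.ne'
    have h1 : ∀ q : ℕ, q.Prime → q ∣ Nat.card T → q = p := by
      intro q hq hd
      by_contra hqp
      haveI : Fact q.Prime := ⟨hq⟩
      obtain ⟨x, hx⟩ := exists_prime_orderOf_dvd_card' q hd
      exact hcon ⟨q, x, hq, hqp, hx⟩
    exact ⟨(Nat.card T).primeFactorsList.length,
      Nat.eq_prime_pow_of_unique_prime_dvd h0 fun {q} hq hd => h1 q hq hd⟩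
  haveI := hs.1
  haveI : Nontrivial (Subgroup.center T) := hpg.center_nontrivial
  rcases hs.eq_bot_or_eq_top_of_normal (Subgroup.center T) inferInstance with h | h
  · exact (Subgroup.nontrivial_iff_ne_bot _).1 this h
  · apply hab
    intro a c
    have h1 : c ∈ Subgroup.center T := by rw [h]; trivial
    exact Subgroup.mem_center_iff.1 h1 a

theorem periodic_mul {T : Type} {k : ℕ} {ξ : ℤ → T} (h : ∀ i : ℤ, ξ (i + k) = ξ i) (m i : ℤ) :
    ξ (i + m * k) = ξ i := by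
  have h1 : Function.Periodic ξ (k : ℤ) := h
  exact h1.int_mul m i

theorem trv_thm : TRVStmt := by
  intro T _ _ p b hp hs hab d hL
  obtain ⟨q, x, hq, hqp, hx⟩ := exists_other_prime T hp hs hab
  rcases Nat.eq_zero_or_pos b with rfl | hb
  · rw [pow_zero]; exact one_dvd _
  obtain ⟨v, rfl⟩ : ∃ v, b = v + 1 := ⟨b - 1, by omega⟩
  by_contra hv
  haveI : Fact q.Prime := ⟨hq⟩
  have hk0 : 0 < p ^ (v + 1) := pow_pos hp.pos _
  -- the sequences with values in the group generated by x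
  let Q : Subgroup T := Subgroup.zpowers x
  have hQ : ∀ a : Q, a ^ q = 1 := by
    rintro ⟨a, ha⟩
    apply Subtype.ext
    obtain ⟨m, rfl⟩ := Subgroup.mem_zpowers_iff.1 ha
    show (x ^ m) ^ q = 1
    rw [← zpow_natCast, ← zpow_mul, mul_comm, zpow_mul, zpow_natCast, ← hx, pow_orderOf_eq_one,
      one_zpow]
  have hper : ∀ ξ : TSq (1 : MulAut Q) (p ^ (v + 1)), ∀ i : ℤ,
      (ξ : ℤ → Q) (i + (p ^ (v + 1) : ℕ)) = (ξ : ℤ → Q) i := fun ξ i => ξ.2 i
  have hinj : Function.Injective (fun (ξ : TSq (1 : MulAut Q) (p ^ (v + 1)))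
      (j : Fin (p ^ (v + 1))) => (ξ : ℤ → Q) (j : ℕ)) := by
    intro ξ η h
    apply Subtype.ext
    funext i
    have hk : (0 : ℤ) < (p ^ (v + 1) : ℕ) := by exact_mod_cast hk0
    have h1 : ∀ ζ : TSq (1 : MulAut Q) (p ^ (v + 1)),
        (ζ : ℤ → Q) i = (ζ : ℤ → Q) ((i % (p ^ (v + 1) : ℕ)).toNat : ℕ) := by
      intro ζ
      rw [Int.toNat_of_nonneg (Int.emod_nonneg _ hk.ne')]
      conv_lhs => rw [← Int.emod_add_mul_ediv i (p ^ (v + 1) : ℕ), mul_comm]
      exact periodic_mul (hper ζ) _ _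
    rw [h1, h1]
    have h2 : (i % (p ^ (v + 1) : ℕ)).toNat < p ^ (v + 1) := by
      have := Int.emod_lt_of_pos i hk
      omega
    exact congrFun h ⟨_, h2⟩
  haveI : Finite (TSq (1 : MulAut Q) (p ^ (v + 1))) := Finite.of_injective _ hinj
  have hcard : ¬ p ∣ Nat.card (TSq (1 : MulAut Q) (p ^ (v + 1))) := by
    have hpg : IsPGroup q (TSq (1 : MulAut Q) (p ^ (v + 1))) := by
      intro ξ
      refine ⟨1, ?_⟩
      apply Subtype.ext
      funext i
      show ((ξ : ℤ → Q) i) ^ (q ^ 1) = 1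
      rw [pow_one, hQ]
    obtain ⟨m, hm⟩ := IsPGroup.iff_card.1 hpg
    rw [hm]
    intro h
    exact hqp ((Nat.prime_dvd_prime_iff_eq hp hq).1 (hp.dvd_of_dvd_pow h)).symm
  have hL' : SL (tsh (1 : MulAut Q) (p ^ (v + 1))) d := by
    let F : TSq (1 : MulAut Q) (p ^ (v + 1)) →* TSq (1 : MulAut T) (p ^ (v + 1)) :=
      { toFun := fun ξ => ⟨fun i => ((ξ : ℤ → Q) i : T), fun i =>
          congrArg Subtype.val (ξ.2 i)⟩
        map_one' := rfl
        map_mul' := fun _ _ => rfl }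
    refine SL.of_inj F ?_ (fun _ => rfl) hL
    intro ξ η h
    apply Subtype.ext
    funext i
    apply Subtype.ext
    exact congrFun (congrArg Subtype.val h) i
  have hpow : ∀ (m : ℕ) (ξ : TSq (1 : MulAut Q) (p ^ (v + 1))) (i : ℤ),
      (((tsh (1 : MulAut Q) (p ^ (v + 1))) ^ m) ξ : ℤ → Q) i = (ξ : ℤ → Q) (i + m) := by
    intro m ξ i
    rw [tsh, restr_pow_apply, shift_pow_apply]
  have hN : (tsh (1 : MulAut Q) (p ^ (v + 1))) ^ (p ^ (v + 1)) = 1 := by
    apply MulEquiv.ext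
    intro ξ
    apply Subtype.ext
    funext i
    rw [hpow]
    exact hper ξ i
  have h1 := coprime_fix _ hp hcard hN hL' hv
  -- the sequence
  let ξ0 : ℤ → Q := fun i =>
    if ((p ^ (v + 1) : ℕ) : ℤ) ∣ i then ⟨x, Subgroup.mem_zpowers x⟩ else 1
  have hξ0 : ξ0 ∈ TSq (1 : MulAut Q) (p ^ (v + 1)) := by
    intro i
    show ξ0 (i + (p ^ (v + 1) : ℕ)) = ξ0 i
    simp only [ξ0]
    by_cases hd : ((p ^ (v + 1) : ℕ) : ℤ) ∣ i
    · rw [if_pos hd, if_pos (dvd_add hd dvd_rfl)]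
    · rw [if_neg hd, if_neg (fun h => hd ((dvd_add_left dvd_rfl).1 h))]
  have h2 := hpow (p ^ v) ⟨ξ0, hξ0⟩ 0
  rw [h1] at h2
  have h3 : ξ0 0 = ξ0 (0 + (p ^ v : ℕ)) := h2
  rw [zero_add] at h3
  have h4 : ξ0 0 = ⟨x, Subgroup.mem_zpowers x⟩ := if_pos (dvd_zero _)
  have h5 : ξ0 ((p ^ v : ℕ) : ℤ) = 1 := by
    refine if_neg fun h => ?_
    have h6 : p ^ (v + 1) ∣ p ^ v := by exact_mod_cast h
    exact absurd (Nat.le_of_dvd (pow_pos hp.pos _) h6)
      (not_le.2 (Nat.pow_lt_pow_right hp.one_lt (Nat.lt_succ_self v)))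
  rw [h4, h5] at h3
  have h7 : x = 1 := congrArg Subtype.val h3
  rw [h7, orderOf_one] at hx
  exact hq.one_lt.ne hx

end Pool.ENR
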